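import Pool.Agent.Helper62.CS.Stmts

set_option autoImplicit false

/-! Project CS, row LC4: the form of the predicate `x ∈ s.F O`, with polynomial bounds. -/

namespace Pool.Agent.Helper15.CS

open Classical
open Pool.Agent.Helper62.CS

/-! ### Polynomial bounds -/

/-- polynomially bounded -/
def PB (f : ℕ → ℕ) : Prop := ∃ a, ∀ n, f n ≤ (n + 2) ^ a

theorem PB.const (c : ℕ) : PB (fun _ => c) :=
  ⟨c, fun n => (Nat.lt_two_pow_self (n := c)).le.trans (Nat.pow_le_pow_left (by omega) c)⟩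

theorem PB.id : PB (fun n => n) := ⟨1, fun n => by rw [pow_one]; exact Nat.le_add_right n 2⟩

theorem PB.add {f g : ℕ → ℕ} (hf : PB f) (hg : PB g) : PB (fun n => f n + g n) := by
  obtain ⟨a, ha⟩ := hf
  obtain ⟨b, hb⟩ := hg
  refine ⟨(a + b) + 1, fun n => ?_⟩
  have h1 : f n ≤ (n + 2) ^ (a + b) := (ha n).trans (Nat.pow_le_pow_right (by omega) (by omega))
  have h2 : g n ≤ (n + 2) ^ (a + b) := (hb n).trans (Nat.pow_le_pow_right (by omega) (by omega))
  calc f n + g n ≤ (n + 2) ^ (a + b) * 2 := by omega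
    _ ≤ (n + 2) ^ (a + b) * (n + 2) := Nat.mul_le_mul_left _ (by omega)
    _ = (n + 2) ^ ((a + b) + 1) := (pow_succ _ _).symm

theorem PB.mul {f g : ℕ → ℕ} (hf : PB f) (hg : PB g) : PB (fun n => f n * g n) := by
  obtain ⟨a, ha⟩ := hf
  obtain ⟨b, hb⟩ := hg
  refine ⟨a + b, fun n => ?_⟩
  rw [pow_add]
  exact Nat.mul_le_mul (ha n) (hb n)

theorem PB.pow {f : ℕ → ℕ} (hf : PB f) (j : ℕ) : PB (fun n => f n ^ j) := by
  obtain ⟨a, ha⟩ := hf
  refine ⟨a * j, fun n => ?_⟩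
  rw [pow_mul]
  exact Nat.pow_le_pow_left (ha n) j

theorem PB.clock {f : ℕ → ℕ} (hf : PB f) (c : ℕ) : PB (fun n => f n ^ c + c) :=
  (hf.pow c).add (PB.const c)

theorem PB.fin {f : ℕ → ℕ} (hf : PB f) : ∃ c : ℕ, ∀ n, f n ≤ n ^ c + c := by
  obtain ⟨a, ha⟩ := hf
  refine ⟨3 ^ a + 2 * a, fun n => (ha n).trans ?_⟩
  by_cases hn : 2 ≤ n
  · have h1 : n + 2 ≤ n ^ 2 := by nlinarith
    calc (n + 2) ^ a ≤ (n ^ 2) ^ a := Nat.pow_le_pow_left h1 a
      _ = n ^ (2 * a) := (pow_mul _ _ _).symm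
      _ ≤ n ^ (3 ^ a + 2 * a) := Nat.pow_le_pow_right (by omega) (Nat.le_add_left _ _)
      _ ≤ n ^ (3 ^ a + 2 * a) + (3 ^ a + 2 * a) := Nat.le_add_right _ _
  · have h1 : (n + 2) ^ a ≤ 3 ^ a := Nat.pow_le_pow_left (by omega) a
    calc (n + 2) ^ a ≤ 3 ^ a := h1
      _ ≤ n ^ (3 ^ a + 2 * a) + (3 ^ a + 2 * a) := by omega

theorem clock_mono {a b : ℕ} (c : ℕ) (h : a ≤ b) : a ^ c + c ≤ b ^ c + c :=
  Nat.add_le_add_right (Nat.pow_le_pow_left h c) c

/-! ### Locality -/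

theorem loc_mono {k k' : ℕ} {Φ : Lang → Prop} (h : k ≤ k') (hΦ : Loc k Φ) : Loc k' Φ := by
  intro O
  obtain ⟨F, hF, h1⟩ := hΦ O
  exact ⟨F, hF.trans h, h1⟩

theorem loc_C (h1 : ST_LC1) (s : Tri) (N : ℕ) (u : Str) (hu : u.length ≤ N) :
    Loc (N ^ s.c1 + s.c1) (fun O => u ∈ s.C O) :=
  loc_mono (clock_mono s.c1 hu) (h1 s.P1 [u] (u.length ^ s.c1 + s.c1))

/-- `w` is a witness for `z` -/
def Psi (s : Tri) (z w : Str) (O : Lang) : Prop :=
  w.length ≤ z.length ^ s.c2 + s.c2 ∧ Accepts s.P2 (s.C O) [z, w] (z.length ^ s.c2 + s.c2)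

theorem len_pair {x y : Str} {a b : ℕ} (hx : x.length ≤ a) (hy : y.length ≤ b) :
    ∀ z ∈ [x, y], z.length ≤ a + b := by
  intro z hz
  rcases List.mem_cons.1 hz with rfl | hz
  · omega
  · rw [List.mem_singleton] at hz
    subst hz
    omega

theorem loc_Psi (h1 : ST_LC1) (h2 : ST_LC2) (s : Tri) (L m : ℕ) (hm : m = L ^ s.c2 + s.c2)
    (z w : Str) (hz : z.length ≤ L) (hw : w.length ≤ m) :
    Loc (m * (((L + m) + m) ^ s.c1 + s.c1)) (Psi s z w) := by
  have hT : z.length ^ s.c2 + s.c2 ≤ m := by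
    rw [hm]
    exact clock_mono s.c2 hz
  have h3 := h2 s.P2 [z, w] (z.length ^ s.c2 + s.c2) (L + m) (((L + m) + m) ^ s.c1 + s.c1) s.C
    (len_pair hz hw) (fun u hu => loc_C h1 s _ u (by omega))
  have h4 := loc_mono (Nat.mul_le_mul_right _ hT) h3
  intro O
  by_cases h5 : w.length ≤ z.length ^ s.c2 + s.c2
  · obtain ⟨F, hF, h6⟩ := h4 O
    exact ⟨F, hF, fun O' hO' => and_congr_right fun _ => h6 O' hO'⟩
  · exact ⟨∅, Nat.zero_le _, fun O' _ => iff_of_false (fun h => h5 h.1) (fun h => h5 h.1)⟩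

/-- runs depend only on short words -/
theorem run_dep (h2 : ST_LC2) (P : Prog) (inp : List Str) (T l : ℕ)
    (hl : ∀ x ∈ inp, x.length ≤ l) (O₁ O₂ : Lang)
    (h : ∀ z : Str, z.length ≤ l + T → (z ∈ O₁ ↔ z ∈ O₂)) :
    Accepts P O₁ inp T ↔ Accepts P O₂ inp T := by
  have h3 := h2 P inp T l 0 (fun O => if O = ∅ then O₁ else O₂) hl (by
    intro u hu O
    refine ⟨∅, le_rfl, fun O' _ => ?_⟩
    beta_reduce
    split_ifs
    · exact Iff.rfl
    · exact h u hu
    · exact (h u hu).symm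
    · exact Iff.rfl)
  obtain ⟨F, hF, h4⟩ := h3 ∅
  rw [Nat.mul_zero, Nat.le_zero, Finset.card_eq_zero] at hF
  subst hF
  have h5 := h4 Set.univ (fun z hz => absurd hz (Finset.notMem_empty z))
  have h6 : (Set.univ : Lang) ≠ ∅ := Set.univ_nonempty.ne_empty
  simp only [if_true, if_neg h6] at h5
  exact h5

theorem st_LC4 (h1 : ST_LC1) (h2 : ST_LC2) (h3 : ST_LC3) : ST_LC4 := by
  intro s
  have pT : PB (fun n => n ^ s.c3 + s.c3) := PB.id.clock s.c3
  have pL : PB (fun n => (n + (n ^ s.c3 + s.c3)) + (n ^ s.c3 + s.c3)) := (PB.id.add pT).add pT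
  have pm := pL.clock s.c2
  have pk := pm.mul (((pL.add pm).add pm).clock s.c1)
  have pE := (pT.add (PB.const 1)).add (pT.mul (pm.add (PB.const 2)))
  obtain ⟨c, hc⟩ := (pE.add pk).fin
  refine ⟨c, fun x => ?_⟩
  obtain ⟨T, hT⟩ : ∃ T, T = x.length ^ s.c3 + s.c3 := ⟨_, rfl⟩
  obtain ⟨L, hL⟩ : ∃ L, L = (x.length + T) + T := ⟨_, rfl⟩
  obtain ⟨m, hm⟩ : ∃ m, m = L ^ s.c2 + s.c2 := ⟨_, rfl⟩
  have hcx := hc x.length
  beta_reduce at hcx
  rw [← hT, ← hL, ← hm] at hcx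
  constructor
  · -- the disjunction
    have hB : ∀ z : Str, z.length ≤ (x.length + T) + T → ∀ O : Lang,
        (z ∈ s.B O ↔ ∃ w : Str, w.length ≤ m ∧ Psi s z w O) := by
      intro z hz O
      constructor
      · rintro ⟨w, hw1, hw2⟩
        refine ⟨w, hw1.trans ?_, hw1, hw2⟩
        rw [hm, hL]
        exact clock_mono s.c2 hz
      · rintro ⟨w, -, hw1, hw2⟩
        exact ⟨w, hw1, hw2⟩
    have hloc : ∀ z w : Str, z.length ≤ (x.length + T) + T → w.length ≤ m →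
        Loc (m * (((L + m) + m) ^ s.c1 + s.c1)) (Psi s z w) := fun z w hz hw =>
      loc_Psi h1 h2 s L m hm z w (by rw [hL]; exact hz) hw
    choose K g hK hg hacc using fun y : (Σ j : Fin (T + 1), (Fin j → Bool)) =>
      h3 s.P3 [x, List.ofFn y.2] T (x.length + T) m _ (Psi s) s.B
        (len_pair le_rfl (by rw [List.length_ofFn]; exact Nat.lt_succ_iff.1 y.1.2)) hB hloc
    let e := Fintype.equivFin (Σ y : (Σ j : Fin (T + 1), (Fin j → Bool)), Fin (K y))
    refine ⟨Fintype.card (Σ y : (Σ j : Fin (T + 1), (Fin j → Bool)), Fin (K y)),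
      fun i => g (e.symm i).1 (e.symm i).2, ?_, ?_, ?_⟩
    · rw [Fintype.card_sigma]
      have h5 : ∑ y : (Σ j : Fin (T + 1), (Fin j → Bool)), Fintype.card (Fin (K y)) ≤
          Fintype.card (Σ j : Fin (T + 1), (Fin j → Bool)) * 2 ^ (T * (m + 2)) := by
        have := Finset.sum_le_card_nsmul (Finset.univ : Finset (Σ j : Fin (T + 1), (Fin j → Bool)))
          (fun y => Fintype.card (Fin (K y))) (2 ^ (T * (m + 2)))
          (fun y _ => by rw [Fintype.card_fin]; exact hK y)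
        rw [smul_eq_mul, Finset.card_univ] at this
        exact this
      have h6 : Fintype.card (Σ j : Fin (T + 1), (Fin j → Bool)) ≤ 2 ^ (T + 1) := by
        rw [Fintype.card_sigma]
        have h7 : ∀ j : Fin (T + 1), Fintype.card (Fin (j : ℕ) → Bool) = 2 ^ (j : ℕ) := by
          intro j
          rw [Fintype.card_fun, Fintype.card_bool, Fintype.card_fin]
        rw [Finset.sum_congr rfl fun j _ => h7 j, ← Finset.sum_range (fun j => 2 ^ j)]
        exact (Nat.geomSum_lt le_rfl fun i hi => Finset.mem_range.1 hi).le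
      calc _ ≤ _ := h5
        _ ≤ 2 ^ (T + 1) * 2 ^ (T * (m + 2)) := Nat.mul_le_mul_right _ h6
        _ = 2 ^ ((T + 1) + T * (m + 2)) := (pow_add _ _ _).symm
        _ ≤ 2 ^ (x.length ^ c + c) := Nat.pow_le_pow_right (by omega) (by omega)
    · intro i O hO
      obtain ⟨F, hF, h6⟩ := hg (e.symm i).1 (e.symm i).2 O hO
      exact ⟨F, hF.trans (by omega), h6⟩
    · intro O
      constructor
      · rintro ⟨y, hy1, hy2⟩
        rw [← hT] at hy1 hy2
        obtain ⟨y', rfl⟩ : ∃ y' : (Σ j : Fin (T + 1), (Fin j → Bool)), List.ofFn y'.2 = y :=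
          ⟨⟨⟨y.length, Nat.lt_succ_iff.2 hy1⟩, y.get⟩, List.ofFn_get y⟩
        obtain ⟨i, hi⟩ := (hacc y' O).1 hy2
        refine ⟨e ⟨y', i⟩, ?_⟩
        beta_reduce
        rw [Equiv.symm_apply_apply]
        exact hi
      · rintro ⟨i, hi⟩
        refine ⟨List.ofFn (e.symm i).1.2, ?_, ?_⟩
        · rw [List.length_ofFn, ← hT]
          exact Nat.lt_succ_iff.1 (e.symm i).1.1.2
        · rw [← hT]
          exact (hacc _ O).2 ⟨_, hi⟩
  · -- dependence on short words only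
    obtain ⟨N, hN⟩ : ∃ N, N = (L + m) + m := ⟨_, rfl⟩
    refine ⟨N + (N ^ s.c1 + s.c1), fun O O' hO => ?_⟩
    have hC : ∀ u : Str, u.length ≤ N → (u ∈ s.C O ↔ u ∈ s.C O') := by
      intro u hu
      refine run_dep h2 s.P1 [u] (u.length ^ s.c1 + s.c1) N ?_ O O' fun z hz => hO z ?_
      · intro y hy
        rw [List.mem_singleton] at hy
        rw [hy]
        exact hu
      · have := clock_mono s.c1 hu
        omega
    have hBB : ∀ z : Str, z.length ≤ L → (z ∈ s.B O ↔ z ∈ s.B O') := by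
      intro z hz
      have h4 := clock_mono s.c2 hz
      rw [← hm] at h4
      refine exists_congr fun w => and_congr_right fun hw => ?_
      refine run_dep h2 s.P2 [z, w] (z.length ^ s.c2 + s.c2) (L + m) (len_pair hz (hw.trans h4))
        _ _ fun u hu => hC u (by omega)
    refine exists_congr fun y => and_congr_right fun hy => ?_
    rw [← hT] at hy ⊢
    refine run_dep h2 s.P3 [x, y] T (x.length + T) (len_pair le_rfl hy) _ _ fun z hz => hBB z ?_
    rw [hL]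
    exact hz

end Pool.Agent.Helper15.CS
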